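import Pool.Agent.R652.TF.Defs

/-!
# Transducers on tapes of trees: helper lemmas for project TF (MP_7161f1_al)
-/

namespace Pool.Agent.R219.TFAux

open Pool.Agent.R652.CA Pool.Agent.R652.TF List

variable {I Q : Type}

/-- final state -/
def fin (step : Q → I × Fin 64 × Bool → Q × List (I × ℤ)) : Q → List (I × ℕ) → Q
  | q, [] => q
  | q, x :: w => fin step (step q (x.1, md x.2, decide (x.2 = 0))).1 w

/-- output of one step -/
def o1 (d : ℕ) (l : List (I × ℤ)) : List (I × ℕ) :=
  l.map (fun y => (y.1, ((d : ℤ) + y.2).toNat))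

theorem trun_cons (step : Q → I × Fin 64 × Bool → Q × List (I × ℤ)) (q : Q) (x : I × ℕ)
    (w : List (I × ℕ)) :
    trun step q (x :: w) = o1 x.2 (step q (x.1, md x.2, decide (x.2 = 0))).2 ++
      trun step (step q (x.1, md x.2, decide (x.2 = 0))).1 w := rfl

theorem trun_append (step : Q → I × Fin 64 × Bool → Q × List (I × ℤ)) :
    ∀ (u v : List (I × ℕ)) (q : Q),
      trun step q (u ++ v) = trun step q u ++ trun step (fin step q u) v
  | [], v, q => rfl
  | x :: u, v, q => by
    rw [List.cons_append, trun_cons, trun_cons, trun_append step u v, List.append_assoc]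
    rfl

theorem fin_append (step : Q → I × Fin 64 × Bool → Q × List (I × ℤ)) :
    ∀ (u v : List (I × ℕ)) (q : Q), fin step q (u ++ v) = fin step (fin step q u) v
  | [], v, q => rfl
  | x :: u, v, q => by
    rw [List.cons_append]
    exact fin_append step u v _

theorem len_shift (step : Q → I × Fin 64 × Bool → Q × List (I × ℤ)) (S : Q → ℤ)
    (h : ∀ q a, ((step q a).2.length : ℤ) = 1 + S (step q a).1 - S q) :
    ∀ (u : List (I × ℕ)) (q : Q),
      ((trun step q u).length : ℤ) = u.length + S (fin step q u) - S q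
  | [], q => by simp [trun, fin]
  | x :: u, q => by
    rw [trun_cons, List.length_append]
    have h1 := h q (x.1, md x.2, decide (x.2 = 0))
    have h2 := len_shift step S h u (step q (x.1, md x.2, decide (x.2 = 0))).1
    have h3 : (o1 x.2 (step q (x.1, md x.2, decide (x.2 = 0))).2).length =
        (step q (x.1, md x.2, decide (x.2 = 0))).2.length := by simp [o1]
    rw [h3]
    push_cast
    rw [h1, h2]
    simp only [List.length_cons, fin]
    push_cast
    ring

theorem close (step : Q → I × Fin 64 × Bool → Q × List (I × ℤ)) (S : Q → ℤ)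
    (h : ∀ q a, ((step q a).2.length : ℤ) = 1 + S (step q a).1 - S q) (q0 : Q)
    (h0 : ∀ q, |S q - S q0| ≤ 6) (u : List (I × ℕ)) :
    |((trun step q0 u).length : ℤ) - u.length| ≤ 6 := by
  rw [len_shift step S h u q0]
  have : (u.length : ℤ) + S (fin step q0 u) - S q0 - u.length = S (fin step q0 u) - S q0 := by ring
  rw [this]
  exact h0 _

theorem loop (step : Q → I × Fin 64 × Bool → Q × List (I × ℤ)) (q : Q) (δ : ℤ) :
    ∀ (w : List (I × ℕ)),
      (∀ x ∈ w, step q (x.1, md x.2, decide (x.2 = 0)) = (q, [(x.1, δ)])) →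
      trun step q w = w.map (fun x => (x.1, ((x.2 : ℤ) + δ).toNat)) ∧ fin step q w = q
  | [], _ => ⟨rfl, rfl⟩
  | x :: w, h => by
    have h1 := h x (by simp)
    have h2 := loop step q δ w (fun y hy => h y (by simp [hy]))
    constructor
    · rw [trun_cons, h1, h2.1]
      rfl
    · simp only [fin, h1, h2.2]

theorem map_zero (w : List (I × ℕ)) :
    w.map (fun x => (x.1, ((x.2 : ℤ) + 0).toNat)) = w := by
  conv_rhs => rw [← List.map_id w]
  apply List.map_congr_left
  intro x _
  simp

theorem loop0 (step : Q → I × Fin 64 × Bool → Q × List (I × ℤ)) (q : Q) (w : List (I × ℕ))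
    (h : ∀ x ∈ w, step q (x.1, md x.2, decide (x.2 = 0)) = (q, [(x.1, 0)])) :
    trun step q w = w ∧ fin step q w = q := by
  have := loop step q 0 w h
  rw [map_zero] at this
  exact this

/-! ## Tours -/

theorem mem_tour : ∀ (t : CT) (d : ℕ) (x : Inf × ℕ), x ∈ tourC t d →
    x.1 ≠ Inf.sep ∧ x.1 ≠ Inf.en ∧ d ≤ x.2
  | CT.lf a b, d, x, h => by
    simp only [tourC, List.mem_append, List.mem_cons, List.mem_replicate] at h
    rcases h with ⟨_, rfl⟩ | rfl | ⟨_, rfl⟩ <;> simp
  | CT.nd l r, d, x, h => by
    simp only [tourC, List.mem_append, List.mem_cons, List.mem_nil_iff, or_false] at h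
    rcases h with rfl | h | rfl | h | rfl
    · simp
    · have := mem_tour l (d + 1) x h
      exact ⟨this.1, this.2.1, by omega⟩
    · simp
    · have := mem_tour r (d + 1) x h
      exact ⟨this.1, this.2.1, by omega⟩
    · simp

theorem map_up : ∀ (t : CT) (d : ℕ),
    (tourC t d).map (fun x => (x.1, ((x.2 : ℤ) + 1).toNat)) = tourC t (d + 1)
  | CT.lf a b, d => by
    simp [tourC, List.map_replicate]
  | CT.nd l r, d => by
    have : ((d : ℤ) + 1).toNat = d + 1 := by omega
    simp only [tourC, List.map_append, List.map_cons, List.map_nil, this, map_up l (d + 1),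
      map_up r (d + 1)]

theorem map_down : ∀ (t : CT) (d : ℕ),
    (tourC t (d + 1)).map (fun x => (x.1, ((x.2 : ℤ) + -1).toNat)) = tourC t d
  | CT.lf a b, d => by
    have : (((d + 1 : ℕ) : ℤ) + -1).toNat = d := by omega
    simp only [tourC, List.map_append, List.map_cons, List.map_replicate, this]
  | CT.nd l r, d => by
    have : (((d + 1 : ℕ) : ℤ) + -1).toNat = d := by omega
    simp only [tourC, List.map_append, List.map_cons, List.map_nil, this, map_down l (d + 1),
      map_down r (d + 1)]

theorem tours_append (L M : List CT) : toursC (L ++ M) = toursC L ++ toursC M := by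
  simp [toursC]

theorem tours_cons (t : CT) (M : List CT) :
    toursC (t :: M) = tourC t 0 ++ (Inf.sep, 0) :: toursC M := by
  simp [toursC]

/-- states of the transducers -/
inductive St
  | c1
  | c0
  | a
  | b
  | c
  | d
  deriving DecidableEq

instance : Fintype St :=
  ⟨{St.c1, St.c0, St.a, St.b, St.c, St.d}, by intro x; cases x <;> decide⟩

/-- initial state: `i` separators are to be read after the first one -/
def ini (i : ℕ) : St := if i = 0 then St.c0 else St.c1

theorem prefix_run (step : St → Inf × Fin 64 × Bool → St × List (Inf × ℤ)) (o : List (Inf × ℤ))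
    (h2 : ∀ d z, step St.c1 (Inf.sep, d, z) = (St.c0, [(Inf.sep, 0)]))
    (h3 : ∀ i d z, i ≠ Inf.sep → step St.c0 (i, d, z) = (St.c0, [(i, 0)]))
    (h4 : ∀ d z, step St.c0 (Inf.sep, d, z) = (St.a, (Inf.sep, 0) :: o))
    (L : List CT) (i : ℕ) (hi : i ≤ 1) (hL : L.length = i) :
    trun step (ini i) ((Inf.sep, 0) :: toursC L) = (Inf.sep, 0) :: (toursC L ++ o1 0 o) ∧
      fin step (ini i) ((Inf.sep, 0) :: toursC L) = St.a := by
  have hi' : i = 0 ∨ i = 1 := by omega
  rcases hi' with rfl | rfl
  · have : L = [] := List.length_eq_zero_iff.1 hL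
    subst this
    have e : ini 0 = St.c0 := rfl
    rw [e]
    constructor
    · rw [trun_cons]
      simp only [h4]
      simp [toursC, trun, o1]
    · simp only [fin, h4, toursC, List.flatMap_nil]
  · obtain ⟨t, rfl⟩ := List.length_eq_one_iff.1 hL
    have e : ini 1 = St.c1 := rfl
    rw [e]
    have hl := loop0 step St.c0 (tourC t 0) (fun x hx => h3 _ _ _ (mem_tour t 0 x hx).1)
    have ht : toursC [t] = tourC t 0 ++ [(Inf.sep, 0)] := by simp [toursC]
    constructor
    · rw [trun_cons]
      simp only [h2]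
      rw [ht, trun_append, hl.1, hl.2, trun_cons]
      simp only [h4]
      simp [trun, o1]
    · rw [ht]
      show fin step (step St.c1 (Inf.sep, md 0, decide (0 = 0))).1 (tourC t 0 ++ [(Inf.sep, 0)]) = _
      rw [h2, fin_append, hl.2]
      simp only [fin, h4]

theorem finish (hT : StmTrn) (hV : StmValidC)
    (step : St → Inf × Fin 64 × Bool → St × List (Inf × ℤ)) (S : St → ℤ)
    (h : ∀ q a, ((step q a).2.length : ℤ) = 1 + S (step q a).1 - S q)
    (hc0 : S St.c0 = 0) (hc1 : S St.c1 = 0) (hb : ∀ q, |S q| ≤ 6)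
    (hy : ∀ q a, ∀ y ∈ (step q a).2, |y.2| ≤ 1)
    (hz : ∀ q i d, ∀ y ∈ (step q (i, d, true)).2, 0 ≤ y.2) (i : ℕ) :
    ∃ H, IsBim H ∧ ∀ (L L' : List CT) (j j' k₁ k₂ : ℕ),
      fin step (ini i) (tapeC L j) = St.d → S St.d = (k₂ : ℤ) - k₁ →
      trun step (ini i) (tapeC L j) ++ replicate k₁ (Inf.en, 0) =
        tapeC L' j' ++ replicate k₂ (Inf.en, 0) →
      RelR H (tapeC L j) (tapeC L' j') := by
  obtain ⟨H, hH, hrel⟩ := hT Inf St inferInstance inferInstance step (ini i) Inf.en hy hz
  refine ⟨H, hH, ?_⟩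
  intro L L' j j' k₁ k₂ hfin hS heq
  have hini : S (ini i) = 0 := by
    unfold ini
    split_ifs
    · exact hc0
    · exact hc1
  have hlen : ((trun step (ini i) (tapeC L j)).length : ℤ) =
      (tapeC L j).length + S St.d - S (ini i) := by
    rw [len_shift step S h, hfin]
  have hlen2 := congrArg List.length heq
  simp only [List.length_append, List.length_replicate] at hlen2
  refine hrel _ _ k₁ k₂ (hV L j) (hV L' j') ?_ ?_ heq
  · have hlen2' : ((trun step (ini i) (tapeC L j)).length : ℤ) + k₁ =
        (tapeC L' j').length + k₂ := by exact_mod_cast hlen2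
    rw [hini] at hlen
    have : ((tapeC L j).length : ℤ) = (tapeC L' j').length := by linarith
    exact_mod_cast this
  · intro u _
    apply close step S h
    intro q
    rw [hini, sub_zero]
    exact hb q

theorem tape_eq (L1 : List CT) (t : CT) (L2 : List CT) (j : ℕ) :
    tapeC (L1 ++ t :: L2) j = ((Inf.sep, 0) :: toursC L1) ++
      (tourC t 0 ++ ((Inf.sep, 0) :: (toursC L2 ++ replicate (j + 1) (Inf.en, 0)))) := by
  simp [tapeC, tours_append, tours_cons]

theorem tape_eq2 (L1 : List CT) (t r : CT) (L2 : List CT) (j : ℕ) :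
    tapeC (L1 ++ t :: r :: L2) j = ((Inf.sep, 0) :: toursC L1) ++
      (tourC t 0 ++ ((Inf.sep, 0) :: (tourC r 0 ++
        ((Inf.sep, 0) :: (toursC L2 ++ replicate (j + 1) (Inf.en, 0)))))) := by
  simp [tapeC, tours_append, tours_cons]

end Pool.Agent.R219.TFAux
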